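import Mathlib
import Pool.Agent.H13.Gap1

namespace Pool.Agent.Results.MP_ec11a7_an.Opening

open Cardinal Set

universe u

/-- `sup { ρ(x, G₂) : x ∈ G₁, ‖x‖ = 1 }` -/
noncomputable def halfGap {𝕜 : Type} [RCLike 𝕜] {E : Type u} [NormedAddCommGroup E]
    [NormedSpace 𝕜 E] (G₁ G₂ : Submodule 𝕜 E) : ℝ :=
  sSup ((fun x => Metric.infDist x (G₂ : Set E)) '' {x | x ∈ G₁ ∧ ‖x‖ = 1})

/-- the opening (gap) of two subspaces -/
noncomputable def opening {𝕜 : Type} [RCLike 𝕜] {E : Type u} [NormedAddCommGroup E]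
    [NormedSpace 𝕜 E] (G₁ G₂ : Submodule 𝕜 E) : ℝ :=
  max (halfGap G₁ G₂) (halfGap G₂ G₁)

/-- density character: least cardinality of a dense subset -/
noncomputable def dens (X : Type u) [TopologicalSpace X] : Cardinal.{u} :=
  sInf {c | ∃ s : Set X, Dense s ∧ #s = c}

theorem near_of_halfGap {𝕜 : Type} [RCLike 𝕜] {E : Type u} [NormedAddCommGroup E]
    [NormedSpace 𝕜 E] {G₁ G₂ : Submodule 𝕜 E} (h : halfGap G₁ G₂ < 0.56) :
    Pool.Agent.H13.Gap.Near G₁ G₂ := by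
  intro x hx
  by_cases h0 : x = 0
  · exact ⟨0, Submodule.zero_mem _, by simp [h0]⟩
  have hn : ‖x‖ ≠ 0 := norm_ne_zero_iff.2 h0
  have hn' : ((‖x‖ : ℝ) : 𝕜) ≠ 0 := by exact_mod_cast hn
  have hb : BddAbove ((fun x => Metric.infDist x (G₂ : Set E)) '' {x | x ∈ G₁ ∧ ‖x‖ = 1}) := by
    refine ⟨1, ?_⟩
    rintro _ ⟨z, hz, rfl⟩
    have := Metric.infDist_le_dist_of_mem (x := z) (s := (G₂ : Set E)) G₂.zero_mem
    rw [dist_zero_right, hz.2] at this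
    exact this
  have h1 : Metric.infDist (((‖x‖ : ℝ) : 𝕜)⁻¹ • x) (G₂ : Set E) < 0.56 := by
    refine lt_of_le_of_lt (le_csSup hb ⟨_, ⟨G₁.smul_mem _ hx, ?_⟩, rfl⟩) h
    rw [norm_smul, norm_inv, RCLike.norm_ofReal, abs_norm, inv_mul_cancel₀ hn]
  obtain ⟨w, hw1, hw2⟩ := (Metric.infDist_lt_iff ⟨0, G₂.zero_mem⟩).1 h1
  refine ⟨((‖x‖ : ℝ) : 𝕜) • w, Submodule.smul_mem _ _ hw1, ?_⟩
  have e : x - ((‖x‖ : ℝ) : 𝕜) • w = ((‖x‖ : ℝ) : 𝕜) • (((‖x‖ : ℝ) : 𝕜)⁻¹ • x - w) := by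
    rw [smul_sub, smul_smul, mul_inv_cancel₀ hn', one_smul]
  rw [e, norm_smul, RCLike.norm_ofReal, abs_norm, mul_comm, ← dist_eq_norm]
  exact mul_le_mul_of_nonneg_right hw2.le (norm_nonneg _)

theorem dens_spec (X : Type u) [TopologicalSpace X] : ∃ s : Set X, Dense s ∧ #s = dens X :=
  csInf_mem (s := {c | ∃ s : Set X, Dense s ∧ #s = c}) ⟨_, Set.univ, dense_univ, rfl⟩

theorem aleph0_le_dens {𝕜 : Type} [RCLike 𝕜] {E : Type u} [NormedAddCommGroup E]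
    [NormedSpace 𝕜 E] (h : ¬ FiniteDimensional 𝕜 E) : ℵ₀ ≤ dens E := by
  obtain ⟨s, hs, he⟩ := dens_spec E
  by_contra hc
  rw [not_le, ← he, lt_aleph0_iff_set_finite] at hc
  have h1 : s = Set.univ := by rw [← hc.isClosed.closure_eq]; exact hs.closure_eq
  haveI : Finite E := by rw [← finite_univ_iff, ← h1]; exact hc
  exact h inferInstance

theorem dens_le {𝕜 : Type} [RCLike 𝕜] {E : Type u} [NormedAddCommGroup E]
    [NormedSpace 𝕜 E] {G₁ G₂ : Submodule 𝕜 E} (h12 : Pool.Agent.H13.Gap.Near G₁ G₂)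
    (h21 : Pool.Agent.H13.Gap.Near G₂ G₁) (h : ¬ FiniteDimensional 𝕜 G₂) :
    dens G₁ ≤ dens G₂ := by
  obtain ⟨s, hs, he⟩ := dens_spec G₂
  obtain ⟨T, hT, hle⟩ := Pool.Agent.H13.Gap.dense_of_near h12 h21 hs
  rw [he, max_eq_right (aleph0_le_dens h)] at hle
  exact (csInf_le' (show #T ∈ {c | ∃ s : Set G₁, Dense s ∧ #s = c} from ⟨T, hT, rfl⟩)).trans hle

theorem result : ∃ α : ℝ, 1 / 2 < α ∧
    ∀ (𝕜 : Type) [RCLike 𝕜] (E : Type u) [NormedAddCommGroup E] [NormedSpace 𝕜 E]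
      (G₁ G₂ : Submodule 𝕜 E), opening G₁ G₂ < α →
      (FiniteDimensional 𝕜 G₁ ↔ FiniteDimensional 𝕜 G₂) ∧
      (¬ FiniteDimensional 𝕜 G₁ → dens G₁ = dens G₂) := by
  refine ⟨0.56, by norm_num, ?_⟩
  intro 𝕜 _ E _ _ G₁ G₂ h
  have h12 := near_of_halfGap ((le_max_left _ _).trans_lt h)
  have h21 := near_of_halfGap ((le_max_right _ _).trans_lt h)
  have hf : FiniteDimensional 𝕜 G₁ ↔ FiniteDimensional 𝕜 G₂ :=
    ⟨fun _ => Pool.Agent.H13.Gap.finite_of_near h21 h12,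
      fun _ => Pool.Agent.H13.Gap.finite_of_near h12 h21⟩
  exact ⟨hf, fun h1 => le_antisymm (dens_le h12 h21 (fun h2 => h1 (hf.2 h2))) (dens_le h21 h12 h1)⟩

end Pool.Agent.Results.MP_ec11a7_an.Opening
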